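import Pool.Agent.H121.FL.Iface
import Pool.Agent.H168.Y987.Op

/-! # FL-EQN: the resolvent equation in the flat band basis -/

set_option autoImplicit false

open scoped BigOperators InnerProductSpace Topology ENNReal
open Filter MeasureTheory

namespace Pool.Agent.H588.FL

open Pool.Agent.Y662.TR (LL Cf Mw dv hu clp)
open Pool.Agent.TH369.AN (Rz)
open Pool.Agent.H987.Z (Rs Gr)
open Pool.Agent.H987.Y (Lt Ker Op kf)
open Pool.Agent.H121.Z987 (HH wt Q)
open Pool.Agent.H121.FL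

variable {d : ℕ}

/-- the box of radius `ρ` around `x` -/
noncomputable def bx (ρ : ℕ) (x : Lt d) : Finset (Lt d) :=
  Fintype.piFinset fun i => Finset.Icc (x i - ρ) (x i + ρ)

theorem mem_bx {ρ : ℕ} {x y : Lt d} (h : nm (x - y) ≤ ρ) : y ∈ bx ρ x := by
  unfold bx
  rw [Fintype.mem_piFinset]
  intro i
  have h1 : (x i - y i).natAbs ≤ ρ := by
    refine le_trans ?_ h
    unfold nm
    exact Finset.single_le_sum (f := fun i => ((x - y) i).natAbs) (fun _ _ => Nat.zero_le _)
      (Finset.mem_univ i)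
  rw [Finset.mem_Icc]
  omega

theorem card_bx (ρ : ℕ) (x : Lt d) : (bx ρ x).card = nb d ρ := by
  unfold bx nb
  rw [Fintype.card_piFinset]
  have h : ∀ i : Fin d, (Finset.Icc (x i - ρ) (x i + ρ)).card = 2 * ρ + 1 := by
    intro i
    rw [Int.card_Icc]
    omega
  rw [Finset.prod_congr rfl fun i _ => h i, Finset.prod_const, Finset.card_univ, Fintype.card_fin]

theorem nm_sub_comm (x y : Lt d) : nm (x - y) = nm (y - x) := by
  unfold nm
  refine Finset.sum_congr rfl fun i _ => ?_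
  rw [← Int.natAbs_neg]
  congr 1
  rw [Pi.sub_apply, Pi.sub_apply]
  ring

theorem nm_tri (x y z : Lt d) : nm (x - z) ≤ nm (x - y) + nm (y - z) := by
  unfold nm
  rw [← Finset.sum_add_distrib]
  refine Finset.sum_le_sum fun i _ => ?_
  simp only [Pi.sub_apply]
  omega

/-- functions of two variables which vanish outside of a finite set -/
theorem swap (f : Lt d → Lt d → ℂ) (F F' : Finset (Lt d)) (h : ∀ x y, f x y ≠ 0 → x ∈ F ∧ y ∈ F') :
    ∑' x, ∑' y, f x y = ∑' y, ∑' x, f x y := by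
  have hs : Summable (Function.uncurry f) := by
    refine summable_of_ne_finset_zero (s := F ×ˢ F') ?_
    rintro ⟨x, y⟩ hxy
    by_contra hne
    apply hxy
    rw [Finset.mem_product]
    exact h x y hne
  exact (Summable.tsum_comm hs).symm

section fb

variable {R : ℕ} {t φ : Lt d → Lt d → ℝ} {E : Lt d → ℝ} {g : ℝ}

theorem fb_x (hF : FB R t φ E g) {a x : Lt d} (h : φ a x ≠ 0) : x ∈ bx R a := mem_bx (hF.rg a x h)

theorem fb_a (hF : FB R t φ E g) {a x : Lt d} (h : φ a x ≠ 0) : a ∈ bx R x :=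
  mem_bx (by rw [nm_sub_comm]; exact hF.rg a x h)

theorem fb_sq (hF : FB R t φ E g) (a : Lt d) (F : Finset (Lt d)) : ∑ x ∈ F, φ a x ^ 2 ≤ 1 := by
  have h1 := hF.on a a
  rw [if_pos rfl] at h1
  have h2 := sum_le_hasSum F (fun x _ => mul_self_nonneg (φ a x)) h1
  refine le_trans (le_of_eq ?_) h2
  exact Finset.sum_congr rfl fun x _ => by ring

theorem fb_le (hF : FB R t φ E g) (a x : Lt d) : |φ a x| ≤ 1 := by
  have h1 := fb_sq hF a {x}
  rw [Finset.sum_singleton] at h1
  exact (sq_le_one_iff_abs_le_one _).1 h1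

/-- coefficients of a function -/
noncomputable def cw (φ : Lt d → Lt d → ℝ) (w : Lt d → ℂ) (a : Lt d) : ℂ :=
  ∑' x, ((φ a x : ℝ) : ℂ) * w x

theorem cw_sum (hF : FB R t φ E g) (w : Lt d → ℂ) (a : Lt d) :
    cw φ w a = ∑ x ∈ bx R a, ((φ a x : ℝ) : ℂ) * w x := by
  unfold cw
  refine tsum_eq_sum fun x hx => ?_
  have : φ a x = 0 := by
    by_contra h
    exact hx (fb_x hF h)
  rw [this, Complex.ofReal_zero, zero_mul]

/-- completeness -/
theorem expand (hF : FB R t φ E g) (w : Lt d → ℂ) (x : Lt d) :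
    w x = ∑' b, ((φ b x : ℝ) : ℂ) * cw φ w b := by
  have h1 : ∀ b, ((φ b x : ℝ) : ℂ) * cw φ w b =
      ∑' x', ((φ b x : ℝ) : ℂ) * (((φ b x' : ℝ) : ℂ) * w x') := fun b => by
    unfold cw
    rw [tsum_mul_left]
  rw [tsum_congr h1, swap _ (bx R x) ((bx R x).biUnion fun b => bx R b)]
  · have h2 : ∀ x', ∑' b, ((φ b x : ℝ) : ℂ) * (((φ b x' : ℝ) : ℂ) * w x') =
        if x' = x then w x' else 0 := by
      intro x'
      have h3 : ∀ b, ((φ b x : ℝ) : ℂ) * (((φ b x' : ℝ) : ℂ) * w x') =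
          ((φ b x * φ b x' : ℝ) : ℂ) * w x' := fun b => by
        push_cast
        ring
      rw [tsum_congr h3, tsum_mul_right, ← Complex.ofReal_tsum, (hF.cp x x').tsum_eq]
      by_cases hx : x = x'
      · rw [if_pos hx, if_pos hx.symm, Complex.ofReal_one, one_mul]
      · rw [if_neg hx, if_neg (fun h => hx h.symm), Complex.ofReal_zero, zero_mul]
    rw [tsum_congr h2, tsum_ite_eq]
  · intro b x' hne
    have h4 : φ b x ≠ 0 := by
      intro h
      apply hne
      rw [h, Complex.ofReal_zero, zero_mul]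
    have h5 : φ b x' ≠ 0 := by
      intro h
      apply hne
      rw [h, Complex.ofReal_zero, zero_mul, mul_zero]
    refine ⟨fb_a hF h4, ?_⟩
    rw [Finset.mem_biUnion]
    exact ⟨b, fb_a hF h4, fb_x hF h5⟩

/-- the kinetic term -/
theorem kin (hF : FB R t φ E g) (w : Lt d → ℂ) (a : Lt d) :
    ∑' x, ((φ a x : ℝ) : ℂ) * ∑' x', ((t x x' : ℝ) : ℂ) * w x' = (E a : ℂ) * cw φ w a := by
  have h1 : ∀ x, ((φ a x : ℝ) : ℂ) * ∑' x', ((t x x' : ℝ) : ℂ) * w x' =
      ∑' x', ((φ a x : ℝ) : ℂ) * (((t x x' : ℝ) : ℂ) * w x') := fun x => by rw [tsum_mul_left]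
  rw [tsum_congr h1, swap _ (bx R a) ((bx R a).biUnion fun b => bx R b)]
  · have h2 : ∀ x', ∑' x, ((φ a x : ℝ) : ℂ) * (((t x x' : ℝ) : ℂ) * w x') =
        (E a : ℂ) * (((φ a x' : ℝ) : ℂ) * w x') := by
      intro x'
      have h3 : ∀ x, ((φ a x : ℝ) : ℂ) * (((t x x' : ℝ) : ℂ) * w x') =
          ((t x' x * φ a x : ℝ) : ℂ) * w x' := fun x => by
        rw [hF.sy x x']
        push_cast
        ring
      rw [tsum_congr h3, tsum_mul_right, ← Complex.ofReal_tsum, (hF.eg a x').tsum_eq]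
      push_cast
      ring
    rw [tsum_congr h2, tsum_mul_left]
    rfl
  · intro x x' hne
    have h4 : φ a x ≠ 0 := by
      intro h
      apply hne
      rw [h, Complex.ofReal_zero, zero_mul]
    have h5 : t x x' ≠ 0 := by
      intro h
      apply hne
      rw [h, Complex.ofReal_zero, zero_mul, mul_zero]
    refine ⟨fb_x hF h4, ?_⟩
    rw [Finset.mem_biUnion]
    exact ⟨x, fb_x hF h4, mem_bx (hF.trg x x' h5)⟩

/-- the potential -/
theorem pot (hF : FB R t φ E g) (v : Lt d → ℝ) (w : Lt d → ℂ) (a : Lt d) :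
    ∑' x, ((φ a x : ℝ) : ℂ) * (((v x : ℝ) : ℂ) * w x) =
      ∑' b, ((va φ v a b : ℝ) : ℂ) * cw φ w b := by
  have h1 : ∀ x, ((φ a x : ℝ) : ℂ) * (((v x : ℝ) : ℂ) * w x) =
      ∑' b, ((φ a x * v x * φ b x : ℝ) : ℂ) * cw φ w b := by
    intro x
    have h3 : ∀ b, ((φ a x * v x * φ b x : ℝ) : ℂ) * cw φ w b =
        (((φ a x : ℝ) : ℂ) * ((v x : ℝ) : ℂ)) * (((φ b x : ℝ) : ℂ) * cw φ w b) := fun b => by
      push_cast
      ring
    rw [tsum_congr h3, tsum_mul_left, ← expand hF w x]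
    ring
  rw [tsum_congr h1, swap _ (bx R a) ((bx R a).biUnion fun b => bx R b)]
  · refine tsum_congr fun b => ?_
    rw [tsum_mul_right, ← Complex.ofReal_tsum]
    rfl
  · intro x b hne
    have h4 : φ a x ≠ 0 := by
      intro h
      apply hne
      rw [h, zero_mul, zero_mul, Complex.ofReal_zero, zero_mul]
    have h5 : φ b x ≠ 0 := by
      intro h
      apply hne
      rw [h, mul_zero, Complex.ofReal_zero, zero_mul]
    refine ⟨fb_x hF h4, ?_⟩
    rw [Finset.mem_biUnion]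
    exact ⟨x, fb_x hF h4, fb_a hF h5⟩

/-- the perturbation -/
theorem per (hF : FB R t φ E g) {r : ℕ} {b : ℝ} {B : Lt d → Lt d → ℝ} (hB : SB r b B)
    (w : Lt d → ℂ) (a : Lt d) :
    ∑' x, ((φ a x : ℝ) : ℂ) * ∑' x', ((B x x' : ℝ) : ℂ) * w x' =
      ∑' c, ((ba φ B a c : ℝ) : ℂ) * cw φ w c := by
  have hBr : ∀ x x', B x x' ≠ 0 → x' ∈ bx r x := by
    intro x x' h
    apply mem_bx
    by_contra h2
    push Not at h2
    exact h (hB.rg x x' h2)
  have h1 : ∀ x, ((φ a x : ℝ) : ℂ) * ∑' x', ((B x x' : ℝ) : ℂ) * w x' =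
      ∑' c, ((∑' x', φ a x * B x x' * φ c x' : ℝ) : ℂ) * cw φ w c := by
    intro x
    have h2 : ∀ x', ((B x x' : ℝ) : ℂ) * w x' =
        ∑' c, ((B x x' * φ c x' : ℝ) : ℂ) * cw φ w c := by
      intro x'
      have h3 : ∀ c, ((B x x' * φ c x' : ℝ) : ℂ) * cw φ w c =
          ((B x x' : ℝ) : ℂ) * (((φ c x' : ℝ) : ℂ) * cw φ w c) := fun c => by
        push_cast
        ring
      rw [tsum_congr h3, tsum_mul_left, ← expand hF w x']
    rw [tsum_congr h2, swap _ (bx r x) ((bx r x).biUnion fun b => bx R b), ← tsum_mul_left]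
    · refine tsum_congr fun c => ?_
      rw [tsum_mul_right, ← mul_assoc]
      congr 1
      rw [← Complex.ofReal_tsum, ← Complex.ofReal_mul, ← tsum_mul_left]
      congr 1
      refine tsum_congr fun x' => ?_
      ring
    · intro x' c hne
      have h4 : B x x' ≠ 0 := by
        intro h
        apply hne
        rw [h, zero_mul, Complex.ofReal_zero, zero_mul]
      have h5 : φ c x' ≠ 0 := by
        intro h
        apply hne
        rw [h, mul_zero, Complex.ofReal_zero, zero_mul]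
      refine ⟨hBr _ _ h4, ?_⟩
      rw [Finset.mem_biUnion]
      exact ⟨x', hBr _ _ h4, fb_a hF h5⟩
  rw [tsum_congr h1, swap _ (bx R a) ((bx R a).biUnion fun x => (bx r x).biUnion fun b => bx R b)]
  · refine tsum_congr fun c => ?_
    rw [tsum_mul_right, ← Complex.ofReal_tsum]
    rfl
  · intro x c hne
    have h4 : φ a x ≠ 0 := by
      intro h
      apply hne
      have : ∀ x', φ a x * B x x' * φ c x' = 0 := fun x' => by rw [h, zero_mul, zero_mul]
      rw [tsum_congr this, tsum_zero, Complex.ofReal_zero, zero_mul]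
    have h5 : ∃ x', B x x' ≠ 0 ∧ φ c x' ≠ 0 := by
      by_contra hcon
      push Not at hcon
      apply hne
      have : ∀ x', φ a x * B x x' * φ c x' = 0 := fun x' => by
        by_cases hb : B x x' = 0
        · rw [hb, mul_zero, zero_mul]
        · rw [hcon x' hb, mul_zero]
      rw [tsum_congr this, tsum_zero, Complex.ofReal_zero, zero_mul]
    obtain ⟨x', h6, h7⟩ := h5
    refine ⟨fb_x hF h4, ?_⟩
    rw [Finset.mem_biUnion]
    refine ⟨x, fb_x hF h4, ?_⟩
    rw [Finset.mem_biUnion]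
    exact ⟨x', hBr _ _ h6, fb_a hF h7⟩

theorem va_le (hF : FB R t φ E g) (lam : ℝ) (v : Lt d → ℝ) (a a' : Lt d) (hl : 0 ≤ lam)
    (hv : ∀ x, |v x| ≤ lam) : |va φ v a a'| ≤ lam := by
  have h1 : va φ v a a' = ∑ x ∈ bx R a, φ a x * v x * φ a' x := by
    unfold va
    refine tsum_eq_sum fun x hx => ?_
    have : φ a x = 0 := by
      by_contra h
      exact hx (fb_x hF h)
    rw [this, zero_mul, zero_mul]
  rw [h1]
  have h2 : ∀ x ∈ bx R a, |φ a x * v x * φ a' x| ≤ lam / 2 * (φ a x ^ 2 + φ a' x ^ 2) := by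
    intro x _
    rw [abs_mul, abs_mul]
    have h3 : |φ a x| * |φ a' x| ≤ (φ a x ^ 2 + φ a' x ^ 2) / 2 := by
      have := sq_nonneg (|φ a x| - |φ a' x|)
      rw [← sq_abs (φ a x), ← sq_abs (φ a' x)]
      nlinarith
    calc |φ a x| * |v x| * |φ a' x| = |v x| * (|φ a x| * |φ a' x|) := by ring
      _ ≤ lam * ((φ a x ^ 2 + φ a' x ^ 2) / 2) :=
          mul_le_mul (hv x) h3 (by positivity) hl
      _ = _ := by ring
  calc |∑ x ∈ bx R a, φ a x * v x * φ a' x| ≤ ∑ x ∈ bx R a, |φ a x * v x * φ a' x| :=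
        Finset.abs_sum_le_sum_abs _ _
    _ ≤ ∑ x ∈ bx R a, lam / 2 * (φ a x ^ 2 + φ a' x ^ 2) := Finset.sum_le_sum h2
    _ = lam / 2 * (∑ x ∈ bx R a, φ a x ^ 2 + ∑ x ∈ bx R a, φ a' x ^ 2) := by
        rw [← Finset.mul_sum, Finset.sum_add_distrib]
    _ ≤ lam / 2 * (1 + 1) :=
        mul_le_mul_of_nonneg_left (add_le_add (fb_sq hF a _) (fb_sq hF a' _)) (by positivity)
    _ = lam := by ring

theorem va_zero (hF : FB R t φ E g) (v : Lt d → ℝ) (a a' : Lt d) (h : 2 * R < nm (a - a')) :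
    va φ v a a' = 0 := by
  unfold va
  have : ∀ x, φ a x * v x * φ a' x = 0 := by
    intro x
    by_cases h1 : φ a x = 0
    · rw [h1, zero_mul, zero_mul]
    · by_cases h2 : φ a' x = 0
      · rw [h2, mul_zero]
      · exfalso
        have h3 := hF.rg a x h1
        have h4 := hF.rg a' x h2
        have h5 := nm_tri a x a'
        rw [nm_sub_comm x a'] at h5
        omega
  rw [tsum_congr this, tsum_zero]

theorem ba_sum (hF : FB R t φ E g) (B : Lt d → Lt d → ℝ) (a a' : Lt d) :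
    ba φ B a a' = ∑ x ∈ bx R a, ∑ x' ∈ bx R a', φ a x * B x x' * φ a' x' := by
  unfold ba
  rw [tsum_eq_sum (s := bx R a)]
  · refine Finset.sum_congr rfl fun x _ => ?_
    refine tsum_eq_sum fun x' hx' => ?_
    have : φ a' x' = 0 := by
      by_contra h
      exact hx' (fb_x hF h)
    rw [this, mul_zero]
  · intro x hx
    have h0 : φ a x = 0 := by
      by_contra h
      exact hx (fb_x hF h)
    have : ∀ x', φ a x * B x x' * φ a' x' = 0 := fun x' => by rw [h0, zero_mul, zero_mul]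
    rw [tsum_congr this, tsum_zero]

theorem ba_le (hF : FB R t φ E g) {r : ℕ} {b : ℝ} {B : Lt d → Lt d → ℝ} (hb : 0 ≤ b)
    (hB : SB r b B) (a a' : Lt d) : |ba φ B a a'| ≤ b * (nb d R : ℝ) ^ 2 := by
  rw [ba_sum hF]
  have h2 : ∀ x x', |φ a x * B x x' * φ a' x'| ≤ b := by
    intro x x'
    rw [abs_mul, abs_mul]
    calc |φ a x| * |B x x'| * |φ a' x'| ≤ 1 * b * 1 := by
          gcongr
          · exact fb_le hF a x
          · exact hB.bd x x'
          · exact fb_le hF a' x'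
      _ = b := by ring
  calc |∑ x ∈ bx R a, ∑ x' ∈ bx R a', φ a x * B x x' * φ a' x'|
      ≤ ∑ x ∈ bx R a, |∑ x' ∈ bx R a', φ a x * B x x' * φ a' x'| :=
        Finset.abs_sum_le_sum_abs _ _
    _ ≤ ∑ x ∈ bx R a, ∑ x' ∈ bx R a', |φ a x * B x x' * φ a' x'| :=
        Finset.sum_le_sum fun x _ => Finset.abs_sum_le_sum_abs _ _
    _ ≤ ∑ x ∈ bx R a, ∑ x' ∈ bx R a', b :=
        Finset.sum_le_sum fun x _ => Finset.sum_le_sum fun x' _ => h2 x x'
    _ = b * (nb d R : ℝ) ^ 2 := by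
        rw [Finset.sum_const, Finset.sum_const, card_bx, card_bx, nsmul_eq_mul, nsmul_eq_mul]
        ring

theorem ba_zero (hF : FB R t φ E g) {r : ℕ} {b : ℝ} {B : Lt d → Lt d → ℝ}
    (hB : SB r b B) (a a' : Lt d) (h : 2 * R + r < nm (a - a')) : ba φ B a a' = 0 := by
  unfold ba
  have h1 : ∀ x x', φ a x * B x x' * φ a' x' = 0 := by
    intro x x'
    by_cases h1 : φ a x = 0
    · rw [h1, zero_mul, zero_mul]
    by_cases h2 : φ a' x' = 0
    · rw [h2, mul_zero]
    by_cases h3 : B x x' = 0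
    · rw [h3, mul_zero, zero_mul]
    exfalso
    have h4 := hF.rg a x h1
    have h5 := hF.rg a' x' h2
    have h6 : nm (x - x') ≤ r := by
      by_contra h7
      push Not at h7
      exact h3 (hB.rg x x' h7)
    have h7 := nm_tri a x a'
    have h8 := nm_tri x x' a'
    rw [nm_sub_comm x' a'] at h8
    omega
  rw [tsum_congr fun x => by rw [tsum_congr (h1 x), tsum_zero], tsum_zero]

end fb

theorem ker_tB {t B : Lt d → Lt d → ℝ} {h b : ℝ} {r : ℕ} (ht : Ker h t) (hb : 0 ≤ b)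
    (hB : SB r b B) : Ker (h + nb d r * b) (tB t B) := by
  have hBx : ∀ x y, y ∉ bx r x → B x y = 0 := by
    intro x y hy
    apply hB.rg
    by_contra h2
    push Not at h2
    exact hy (mem_bx h2)
  have hBs : ∀ x, Summable fun y => |B x y| := fun x =>
    summable_of_ne_finset_zero (s := bx r x) fun y hy => by rw [hBx x y hy, abs_zero]
  have hsum : ∀ x, Summable fun y => |tB t B x y| := by
    intro x
    refine Summable.of_nonneg_of_le (fun y => abs_nonneg _) (fun y => ?_) ((ht.sm x).add (hBs x))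
    exact abs_add_le _ _
  refine ⟨?_, ?_, hsum, ?_⟩
  · have := ht.h0
    positivity
  · intro x y
    unfold tB
    rw [ht.sy x y, hB.sy x y]
  · intro x
    have h1 : ∑' y, |tB t B x y| ≤ ∑' y, (|t x y| + |B x y|) :=
      Summable.tsum_le_tsum (fun y => abs_add_le _ _) (hsum x) ((ht.sm x).add (hBs x))
    rw [Summable.tsum_add (ht.sm x) (hBs x)] at h1
    have h2 : ∑' y, |B x y| ≤ nb d r * b := by
      rw [tsum_eq_sum (s := bx r x) fun y hy => by rw [hBx x y hy, abs_zero]]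
      calc ∑ y ∈ bx r x, |B x y| ≤ ∑ y ∈ bx r x, b := Finset.sum_le_sum fun y _ => hB.bd x y
        _ = nb d r * b := by rw [Finset.sum_const, card_bx, nsmul_eq_mul]
    linarith [ht.le x]

/-- **FL-EQN** -/
theorem eqn : S_eqn := by
  intro d R r g h b t φ B E hF ht hb hB
  have hK := ker_tB ht hb hB
  refine ⟨⟨_, hK⟩, fun lam v a a' hl hv => ⟨va_le hF lam v a a' hl hv, va_zero hF v a a'⟩,
    fun a a' => ⟨ba_le hF hb hB a a', ba_zero hF hB a a'⟩, ?_⟩
  intro lam ω z y a hlam hz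
  obtain ⟨hop, -, hRs, -, -⟩ := Pool.Agent.H168.Y987.op (Lt d) (tB t B) _ hK
  obtain ⟨A, hA⟩ : ∃ A, A = HH (Op (tB t B)) lam ω := ⟨_, rfl⟩
  have hAs : IsSelfAdjoint A := by
    rw [hA]
    exact (Pool.Agent.H121.Z987.HH_rs _ hRs lam ω).sa
  obtain ⟨w, hw⟩ : ∃ w, w = Rz A z (dv y) := ⟨_, rfl⟩
  have hwc : ∀ c, cf φ (Op (tB t B)) lam ω z y c = cw φ (fun x => w x) c := by
    intro c
    unfold cf cw
    refine tsum_congr fun x => ?_
    rw [hw, hA]
    rfl
  have heq : A w - z • w = dv y := by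
    rw [hw]
    exact Pool.Agent.TH369.AN.rz_eq _ hAs z hz _
  -- the equation at a point
  have hpt : ∀ x, (∑' x', ((t x x' : ℝ) : ℂ) * w x') + (∑' x', ((B x x' : ℝ) : ℂ) * w x') +
      ((clp lam (lam * ω x) : ℝ) : ℂ) * w x - z * w x = if x = y then 1 else 0 := by
    intro x
    have h1 : (A w - z • w) x = dv y x := by rw [heq]
    have h2 : (A w - z • w) x = A w x - z * w x := rfl
    rw [h2, hA, Pool.Agent.H121.Z987.HH_apply, (hop w x).2, Pool.Agent.Y662.TR.dv_apply] at h1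
    have hst : Summable fun x' => ((t x x' : ℝ) : ℂ) * w x' :=
      Pool.Agent.H168.Y987.sm0 ht w x
    have hsB : Summable fun x' => ((B x x' : ℝ) : ℂ) * w x' :=
      summable_of_ne_finset_zero (s := bx r x) fun x' hx' => by
        have : B x x' = 0 := by
          apply hB.rg
          by_contra h3
          push Not at h3
          exact hx' (mem_bx h3)
        rw [this, Complex.ofReal_zero, zero_mul]
    have h3 : ∑' x', ((tB t B x x' : ℝ) : ℂ) * w x' =
        (∑' x', ((t x x' : ℝ) : ℂ) * w x') + ∑' x', ((B x x' : ℝ) : ℂ) * w x' := by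
      rw [← Summable.tsum_add hst hsB]
      refine tsum_congr fun x' => ?_
      unfold tB
      push_cast
      ring
    rw [h3] at h1
    refine h1.trans ?_
    by_cases hxy : x = y
    · rw [if_pos hxy, if_pos hxy]
    · rw [if_neg hxy, if_neg hxy]
  -- sums against `φ a` are finite
  have hfin : ∀ f : Lt d → ℂ, ∑' x, ((φ a x : ℝ) : ℂ) * f x =
      ∑ x ∈ bx R a, ((φ a x : ℝ) : ℂ) * f x := fun f => cw_sum hF f a
  have hkin := kin hF (fun x => w x) a
  have hpot := pot hF (fun x => clp lam (lam * ω x)) (fun x => w x) a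
  have hper := per hF hB (fun x => w x) a
  rw [hfin] at hkin hpot hper
  have hcw := cw_sum hF (fun x => w x) a
  have hy : ∑ x ∈ bx R a, ((φ a x : ℝ) : ℂ) * (if x = y then 1 else 0) = ((φ a y : ℝ) : ℂ) := by
    rw [← hfin]
    have : ∀ x, ((φ a x : ℝ) : ℂ) * (if x = y then 1 else 0) =
        if x = y then ((φ a x : ℝ) : ℂ) else 0 := fun x => by
      split_ifs
      · rw [mul_one]
      · rw [mul_zero]
    rw [tsum_congr this, tsum_ite_eq]
  have hsum : ∑ x ∈ bx R a, ((φ a x : ℝ) : ℂ) * (if x = y then 1 else 0) =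
      (∑ x ∈ bx R a, ((φ a x : ℝ) : ℂ) * ∑' x', ((t x x' : ℝ) : ℂ) * w x') +
      (∑ x ∈ bx R a, ((φ a x : ℝ) : ℂ) * ∑' x', ((B x x' : ℝ) : ℂ) * w x') +
      (∑ x ∈ bx R a, ((φ a x : ℝ) : ℂ) * (((clp lam (lam * ω x) : ℝ) : ℂ) * w x)) -
      z * ∑ x ∈ bx R a, ((φ a x : ℝ) : ℂ) * w x := by
    rw [Finset.mul_sum, ← Finset.sum_add_distrib, ← Finset.sum_add_distrib,
      ← Finset.sum_sub_distrib]
    refine Finset.sum_congr rfl fun x _ => ?_
    rw [← hpt x]
    ring
  rw [hy, hkin, hpot, hper, ← hcw] at hsum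
  rw [hsum]
  have hsplit : ∑' a', ((va φ (fun x => clp lam (lam * ω x)) a a' + ba φ B a a' : ℝ) : ℂ) *
      cf φ (Op (tB t B)) lam ω z y a' =
      (∑' c, ((va φ (fun x => clp lam (lam * ω x)) a c : ℝ) : ℂ) * cw φ (fun x => w x) c) +
      ∑' c, ((ba φ B a c : ℝ) : ℂ) * cw φ (fun x => w x) c := by
    rw [← Summable.tsum_add]
    · refine tsum_congr fun c => ?_
      rw [hwc]
      push_cast
      ring
    · refine summable_of_ne_finset_zero (s := bx (2 * R) a) fun c hc => ?_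
      have : va φ (fun x => clp lam (lam * ω x)) a c = 0 := by
        apply va_zero hF
        by_contra h3
        push Not at h3
        exact hc (mem_bx h3)
      rw [this, Complex.ofReal_zero, zero_mul]
    · refine summable_of_ne_finset_zero (s := bx (2 * R + r) a) fun c hc => ?_
      have : ba φ B a c = 0 := by
        apply ba_zero hF hB
        by_contra h3
        push Not at h3
        exact hc (mem_bx h3)
      rw [this, Complex.ofReal_zero, zero_mul]
  rw [hsplit, hwc]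
  ring

end Pool.Agent.H588.FL
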